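import Pool.Agent.H390R2.LP.Main
import Pool.Agent.H390R2.LP.BinRate
import Pool.Agent.H390R2.LP.BinInf
import Pool.Agent.H390R2.LP.BinPert

/-!
# The asymptotic rate of binary codes is strictly below the second linear programming bound

`R δ` is the asymptotic rate of binary codes with relative distance `δ`, and `B δ` is the second
linear programming bound of McEliece, Rodemich, Rumsey and Welch. Both are written out in
`Pool.Agent.H390R2.LP.BinDefs`, exactly as in the problem file.

Proof: the product theorem `iid` (skew information of a product state with an ancilla, applied to
all the translates of a code) bounds the rate by `1 - (h - S) / log 2` for every one-site state of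
energy less than `δ` (`rate_le`). A pure-to-mixed qubit state reproduces the bracket of the second
linear programming bound, and rotating one of its eigenvectors slightly into the ancilla gives a
strictly better value (`exists_site`). The minimum in `B δ` is attained (`B_attained`).
-/

namespace Pool.Agent.Results.MP_0430e4_lc.BelowSecondLP

open Pool.Agent.H390R2.LP Pool.Agent.H390R2.LP.Bin

/-- The asymptotic rate of binary codes is strictly smaller than the second linear programming
bound, for every relative distance between `0` and `1 / 2`. -/
theorem result : ∀ δ : ℝ, 0 < δ → δ < 1 / 2 → R δ < B δ := by
  intro δ h0 h1
  apply B_attained h0 h1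
  intro u hu
  obtain ⟨s, hE, hs⟩ := exists_site h0 h1 hu.1 hu.2
  exact lt_of_le_of_lt (rate_le iid s hE) hs

end Pool.Agent.Results.MP_0430e4_lc.BelowSecondLP
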