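import Mathlib
namespace Pool.Agent.Results.MP_0430e4_lc.ClosedCodes
open Finset

/-- the code `C` is closed under the coordinatewise application of the Boolean operation `f` -/
def ClosedUnder {n k : ℕ} (f : (Fin k → Bool) → Bool) (C : Finset (Fin n → Bool)) : Prop :=
  ∀ c : Fin k → Fin n → Bool, (∀ j, c j ∈ C) → (fun i => f (fun j => c j i)) ∈ C

/-- any two distinct words of `C` differ in at least `d` coordinates -/
def MinDist {n : ℕ} (d : ℕ) (C : Finset (Fin n → Bool)) : Prop :=
  ∀ a ∈ C, ∀ b ∈ C, a ≠ b → d ≤ hammingDist a b

/-- `f` is affine over the field with two elements: a constant plus the parity of some of the variables -/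
def IsAffine {k : ℕ} (f : (Fin k → Bool) → Bool) : Prop :=
  ∃ (S : Finset (Fin k)) (b : Bool), ∀ x, f x = xor b (decide (Odd (S.filter (fun j => x j = true)).card))

/-! ### induction step -/

theorem step {n d : ℕ} (hd : 1 ≤ d) {C C0 C1 : Finset (Fin n → Bool)} {U D : Finset (Fin n)}
    (hDU : D ⊆ U) (hD : d ≤ D.card) (hC : C ⊆ C0 ∪ C1)
    (h0 : C0.card ≤ 2 ^ ((U \ D).card / d)) (h1 : C1.card ≤ 2 ^ ((U \ D).card / d)) :
    C.card ≤ 2 ^ (U.card / d) := by
  have h2 : C.card ≤ C0.card + C1.card := (card_le_card hC).trans (card_union_le _ _)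
  have h3 : (U \ D).card + D.card = U.card := card_sdiff_add_card_eq_card hDU
  have h4 : (U \ D).card / d + 1 ≤ U.card / d := by
    rw [← Nat.add_div_right _ (by omega)]
    exact Nat.div_le_div_right (by omega)
  calc C.card ≤ 2 ^ ((U \ D).card / d) + 2 ^ ((U \ D).card / d) := by omega
    _ = 2 ^ ((U \ D).card / d + 1) := by ring
    _ ≤ 2 ^ (U.card / d) := Nat.pow_le_pow_right (by norm_num) h4

theorem dist_def {n : ℕ} (a b : Fin n → Bool) :
    hammingDist a b = (univ.filter (fun i => a i ≠ b i)).card := rfl

/-- weight -/
def wt {n : ℕ} (a : Fin n → Bool) : ℕ := (univ.filter (fun i => a i = true)).card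

theorem and_bound {n d : ℕ} (hd : 1 ≤ d) : ∀ (m : ℕ) (U : Finset (Fin n)), U.card ≤ m →
    ∀ C : Finset (Fin n → Bool), MinDist d C →
      (∀ a ∈ C, ∀ b ∈ C, (fun i => a i && b i) ∈ C) →
      (∀ a ∈ C, ∀ b ∈ C, ∀ i, a i ≠ b i → i ∈ U) → C.card ≤ 2 ^ (U.card / d) := by
  intro m
  induction m with
  | zero =>
    intro U hU C hC hcl hsupp
    have hU0 : U = ∅ := card_eq_zero.mp (by omega)
    have : C.card ≤ 1 := by
      rw [card_le_one]
      intro a ha b hb
      funext i
      by_contra hne
      have := hsupp a ha b hb i hne
      rw [hU0] at this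
      simp at this
    exact this.trans Nat.one_le_two_pow
  | succ m ih =>
    intro U hU C hC hcl hsupp
    by_cases hcard : C.card ≤ 1
    · exact hcard.trans Nat.one_le_two_pow
    push Not at hcard
    have hne : C.Nonempty := card_pos.mp (by omega)
    obtain ⟨z, hz, hzmin⟩ := exists_min_image C wt hne
    have hzle : ∀ c ∈ C, ∀ i, z i = true → c i = true := by
      intro c hc i hi
      by_contra hci
      have h1 := hzmin _ (hcl z hz c hc)
      have h2 : wt (fun i => z i && c i) < wt z := by
        apply card_lt_card
        rw [ssubset_iff_of_subset]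
        · exact ⟨i, by simpa using hi, by simp [hci]⟩
        · intro j hj
          simp only [mem_filter, mem_univ, true_and, Bool.and_eq_true] at hj ⊢
          exact hj.1
      omega
    have hne2 : (C.erase z).Nonempty := by
      rw [← card_pos, card_erase_of_mem hz]; omega
    obtain ⟨b, hb, hbmin⟩ := exists_min_image (C.erase z) wt hne2
    have hbC : b ∈ C := mem_of_mem_erase hb
    have hbz : b ≠ z := ne_of_mem_erase hb
    -- dichotomy
    have hdich : ∀ c ∈ C, (∀ i, b i = true → c i = true) ∨ (∀ i, (c i && b i) = z i) := by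
      intro c hc
      by_cases h : (fun i => c i && b i) = z
      · right; intro i; exact congrFun h i
      · left
        intro i hi
        by_contra hci
        have h1 := hbmin _ (mem_erase.mpr ⟨h, hcl c hc b hbC⟩)
        have h2 : wt (fun i => c i && b i) < wt b := by
          apply card_lt_card
          rw [ssubset_iff_of_subset]
          · exact ⟨i, by simpa using hi, by simp [hci]⟩
          · intro j hj
            simp only [mem_filter, mem_univ, true_and, Bool.and_eq_true] at hj ⊢
            exact hj.2
        omega
    set D : Finset (Fin n) := univ.filter (fun i => b i ≠ z i) with hDdef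
    have hDcard : d ≤ D.card := hC b hbC z hz hbz
    have hDU : D ⊆ U := by
      intro i hi
      exact hsupp b hbC z hz i (by simpa [hDdef] using hi)
    have hDb : ∀ i ∈ D, b i = true ∧ z i = false := by
      intro i hi
      have h1 : b i ≠ z i := by simpa [hDdef] using hi
      cases hzi : z i
      · refine ⟨?_, rfl⟩
        rw [hzi] at h1
        simpa using h1
      · exact absurd (hzle b hbC i hzi) (by rw [hzi] at h1; simpa using h1)
    classical
    have hlt : (U \ D).card ≤ m := by
      have := card_sdiff_add_card_eq_card hDU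
      omega
    refine step hd hDU hDcard (C0 := C.filter (fun c => ∀ i, b i = true → c i = true))
      (C1 := C.filter (fun c => ¬ ∀ i, b i = true → c i = true)) ?_ ?_ ?_
    · rw [filter_union_filter_not_eq]
    · apply ih _ hlt
      · intro x hx y hy hxy
        exact hC x (mem_filter.mp hx).1 y (mem_filter.mp hy).1 hxy
      · intro x hx y hy
        rw [mem_filter] at hx hy ⊢
        refine ⟨hcl x hx.1 y hy.1, ?_⟩
        intro i hi
        simp [hx.2 i hi, hy.2 i hi]
      · intro x hx y hy i hi
        rw [mem_filter] at hx hy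
        refine mem_sdiff.mpr ⟨hsupp x hx.1 y hy.1 i hi, ?_⟩
        intro hiD
        apply hi
        rw [hx.2 i (hDb i hiD).1, hy.2 i (hDb i hiD).1]
    · apply ih _ hlt
      · intro x hx y hy hxy
        exact hC x (mem_filter.mp hx).1 y (mem_filter.mp hy).1 hxy
      · intro x hx y hy
        rw [mem_filter] at hx hy ⊢
        refine ⟨hcl x hx.1 y hy.1, ?_⟩
        intro h
        apply hx.2
        intro i hi
        have := h i hi
        simp only [Bool.and_eq_true] at this
        exact this.1
      · intro x hx y hy i hi
        rw [mem_filter] at hx hy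
        refine mem_sdiff.mpr ⟨hsupp x hx.1 y hy.1 i hi, ?_⟩
        intro hiD
        apply hi
        have hx' := (hdich x hx.1).resolve_left hx.2 i
        have hy' := (hdich y hy.1).resolve_left hy.2 i
        rw [(hDb i hiD).1, (hDb i hiD).2] at hx' hy'
        rw [Bool.and_true] at hx' hy'
        rw [hx', hy']

theorem or_bound {n d : ℕ} (hd : 1 ≤ d) (C : Finset (Fin n → Bool)) (hC : MinDist d C)
    (hcl : ∀ a ∈ C, ∀ b ∈ C, (fun i => a i || b i) ∈ C) : C.card ≤ 2 ^ (n / d) := by
  classical
  have hinj : Function.Injective (fun (c : Fin n → Bool) (i : Fin n) => ! c i) := by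
    intro a b hab
    funext i
    have := congrFun hab i
    simpa using this
  have h := and_bound hd n (univ : Finset (Fin n)) (by simp)
    (C.image (fun (c : Fin n → Bool) (i : Fin n) => ! c i)) ?_ ?_ ?_
  · rw [card_image_of_injective _ hinj, card_univ, Fintype.card_fin] at h
    exact h
  · intro a ha b hb hab
    obtain ⟨a', ha', rfl⟩ := mem_image.mp ha
    obtain ⟨b', hb', rfl⟩ := mem_image.mp hb
    have h1 : a' ≠ b' := fun h => hab (by rw [h])
    have h2 := hC a' ha' b' hb' h1
    rw [dist_def] at h2 ⊢
    simpa using h2
  · intro a ha b hb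
    obtain ⟨a', ha', rfl⟩ := mem_image.mp ha
    obtain ⟨b', hb', rfl⟩ := mem_image.mp hb
    refine mem_image.mpr ⟨_, hcl a' ha' b' hb', ?_⟩
    funext i
    simp
  · intro a _ b _ i _
    exact mem_univ i

/-- majority of three bits -/
def maj (x y z : Bool) : Bool := (x && y) || ((x && z) || (y && z))

theorem maj_bound {n d : ℕ} (hd : 1 ≤ d) : ∀ (m : ℕ) (U : Finset (Fin n)), U.card ≤ m →
    ∀ C : Finset (Fin n → Bool), MinDist d C →
      (∀ a ∈ C, ∀ b ∈ C, ∀ c ∈ C, (fun i => maj (a i) (b i) (c i)) ∈ C) →
      (∀ a ∈ C, ∀ b ∈ C, ∀ i, a i ≠ b i → i ∈ U) → C.card ≤ 2 ^ (U.card / d) := by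
  intro m
  induction m with
  | zero =>
    intro U hU C hC hcl hsupp
    have hU0 : U = ∅ := card_eq_zero.mp (by omega)
    have : C.card ≤ 1 := by
      rw [card_le_one]
      intro a ha b hb
      funext i
      by_contra hne
      have := hsupp a ha b hb i hne
      rw [hU0] at this
      simp at this
    exact this.trans Nat.one_le_two_pow
  | succ m ih =>
    intro U hU C hC hcl hsupp
    by_cases hcard : C.card ≤ 1
    · exact hcard.trans Nat.one_le_two_pow
    push Not at hcard
    obtain ⟨a', ha', b', hb', hab'⟩ := one_lt_card.mp hcard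
    obtain ⟨i, hi⟩ : ∃ i, a' i ≠ b' i := by
      by_contra h
      push Not at h
      exact hab' (funext h)
    classical
    set C0 := C.filter (fun c => c i = false) with hC0
    set C1 := C.filter (fun c => ¬ c i = false) with hC1
    have hne0 : (C0 ×ˢ C1).Nonempty := by
      rw [nonempty_product]
      cases hai : a' i
      · refine ⟨⟨a', mem_filter.mpr ⟨ha', hai⟩⟩, ⟨b', mem_filter.mpr ⟨hb', ?_⟩⟩⟩
        rw [hai] at hi
        exact fun h => hi h.symm
      · refine ⟨⟨b', mem_filter.mpr ⟨hb', ?_⟩⟩, ⟨a', mem_filter.mpr ⟨ha', by simp [hai]⟩⟩⟩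
        rw [hai] at hi
        cases hbi : b' i
        · rfl
        · exact absurd hbi.symm hi
    obtain ⟨⟨a, b⟩, hab, hmin⟩ := exists_min_image (C0 ×ˢ C1) (fun p => hammingDist p.1 p.2) hne0
    obtain ⟨ha0, hb1⟩ := mem_product.mp hab
    simp only at ha0 hb1
    obtain ⟨haC, hai⟩ := mem_filter.mp ha0
    obtain ⟨hbC, hbi⟩ := mem_filter.mp hb1
    have hbi' : b i = true := by simpa using hbi
    set D : Finset (Fin n) := univ.filter (fun j => a j ≠ b j) with hDdef
    have hDcard : d ≤ D.card := by
      apply hC a haC b hbC
      intro h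
      rw [h, hbi'] at hai
      exact absurd hai (by simp)
    have hDU : D ⊆ U := by
      intro j hj
      exact hsupp a haC b hbC j (by simpa [hDdef] using hj)
    have hmem : ∀ j, j ∈ D ↔ a j ≠ b j := by intro j; simp [hDdef]
    -- words of C0 agree with a on D
    have key0 : ∀ c ∈ C0, ∀ j ∈ D, c j = a j := by
      intro c hc j hj
      obtain ⟨hcC, hci⟩ := mem_filter.mp hc
      by_contra hne
      have hajb := (hmem j).mp hj
      have hcb : c j = b j := by
        revert hne hajb
        cases c j <;> cases a j <;> cases b j <;> simp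
      have hm : (fun l => maj (a l) (b l) (c l)) ∈ C0 := by
        refine mem_filter.mpr ⟨hcl a haC b hbC c hcC, ?_⟩
        simp [maj, hai, hci]
      have h1 := hmin (fun l => maj (a l) (b l) (c l), b) (mem_product.mpr ⟨hm, hb1⟩)
      simp only at h1
      have h2 : hammingDist (fun l => maj (a l) (b l) (c l)) b < hammingDist a b := by
        rw [dist_def, dist_def]
        apply card_lt_card
        rw [ssubset_iff_of_subset]
        · refine ⟨j, by simpa using hajb, ?_⟩
          simp only [mem_filter, mem_univ, true_and, ne_eq, not_not]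
          rw [hcb]
          revert hajb
          cases a j <;> cases b j <;> simp [maj]
        · intro l hl
          simp only [mem_filter, mem_univ, true_and] at hl ⊢
          intro hal
          apply hl
          rw [hal]
          cases b l <;> cases c l <;> simp [maj]
      omega
    have key1 : ∀ c ∈ C1, ∀ j ∈ D, c j = b j := by
      intro c hc j hj
      obtain ⟨hcC, hci⟩ := mem_filter.mp hc
      have hci' : c i = true := by simpa using hci
      by_contra hne
      have hajb := (hmem j).mp hj
      have hcb : c j = a j := by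
        revert hne hajb
        cases c j <;> cases a j <;> cases b j <;> simp
      have hm : (fun l => maj (a l) (b l) (c l)) ∈ C1 := by
        refine mem_filter.mpr ⟨hcl a haC b hbC c hcC, ?_⟩
        simp [maj, hbi', hci']
      have h1 := hmin (a, fun l => maj (a l) (b l) (c l)) (mem_product.mpr ⟨ha0, hm⟩)
      simp only at h1
      have h2 : hammingDist a (fun l => maj (a l) (b l) (c l)) < hammingDist a b := by
        rw [dist_def, dist_def]
        apply card_lt_card
        rw [ssubset_iff_of_subset]
        · refine ⟨j, by simpa using hajb, ?_⟩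
          simp only [mem_filter, mem_univ, true_and, ne_eq, not_not]
          rw [hcb]
          revert hajb
          cases a j <;> cases b j <;> simp [maj]
        · intro l hl
          simp only [mem_filter, mem_univ, true_and] at hl ⊢
          intro hal
          apply hl
          rw [hal]
          cases b l <;> cases c l <;> simp [maj]
      omega
    have hlt : (U \ D).card ≤ m := by
      have := card_sdiff_add_card_eq_card hDU
      omega
    refine step hd hDU hDcard (C0 := C0) (C1 := C1) ?_ ?_ ?_
    · rw [hC0, hC1, filter_union_filter_not_eq]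
    · apply ih _ hlt
      · intro x hx y hy hxy
        exact hC x (mem_filter.mp hx).1 y (mem_filter.mp hy).1 hxy
      · intro x hx y hy w hw
        obtain ⟨hx1, hx2⟩ := mem_filter.mp hx
        obtain ⟨hy1, hy2⟩ := mem_filter.mp hy
        obtain ⟨hw1, hw2⟩ := mem_filter.mp hw
        refine mem_filter.mpr ⟨hcl x hx1 y hy1 w hw1, ?_⟩
        simp [maj, hx2, hy2]
      · intro x hx y hy l hl
        refine mem_sdiff.mpr ⟨hsupp x (mem_filter.mp hx).1 y (mem_filter.mp hy).1 l hl, ?_⟩
        intro hlD
        exact hl ((key0 x hx l hlD).trans (key0 y hy l hlD).symm)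
    · apply ih _ hlt
      · intro x hx y hy hxy
        exact hC x (mem_filter.mp hx).1 y (mem_filter.mp hy).1 hxy
      · intro x hx y hy w hw
        obtain ⟨hx1, hx2⟩ := mem_filter.mp hx
        obtain ⟨hy1, hy2⟩ := mem_filter.mp hy
        obtain ⟨hw1, hw2⟩ := mem_filter.mp hw
        have hx3 : x i = true := by simpa using hx2
        have hy3 : y i = true := by simpa using hy2
        refine mem_filter.mpr ⟨hcl x hx1 y hy1 w hw1, ?_⟩
        simp [maj, hx3, hy3]
      · intro x hx y hy l hl
        refine mem_sdiff.mpr ⟨hsupp x (mem_filter.mp hx).1 y (mem_filter.mp hy).1 l hl, ?_⟩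
        intro hlD
        exact hl ((key1 x hx l hlD).trans (key1 y hy l hlD).symm)

/-! ### ternary operations -/

/-- ten terms -/
def T (h : Bool → Bool → Bool → Bool) : Fin 10 → Bool → Bool → Bool → Bool
  | 0, x, y, _ => h (h x x y) (h y y x) (h x x y)
  | 1, x, y, _ => h x y (h y y y)
  | 2, x, y, _ => h (h x y x) y (h x y y)
  | 3, x, y, w => h x (h x y y) (h w w w)
  | 4, x, y, _ => h x y (h y y x)
  | 5, x, y, w => h (h x y y) (h y x x) (h x y w)
  | 6, x, y, _ => h x (h x y x) x
  | 7, x, y, _ => h (h x x x) x y
  | 8, x, y, w => h (h x y y) (h x w y) (h y x x)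
  | 9, x, y, w => h (h x y w) (h x x y) w

/-- operation with given table -/
def tab (b0 b1 b2 b3 b4 b5 b6 b7 : Bool) (x y w : Bool) : Bool :=
  cond w (cond y (cond x b7 b6) (cond x b5 b4)) (cond y (cond x b3 b2) (cond x b1 b0))

theorem eq_tab (h : Bool → Bool → Bool → Bool) :
    h = tab (h false false false) (h true false false) (h false true false) (h true true false)
      (h false false true) (h true false true) (h false true true) (h true true true) := by
  funext x y w
  cases x <;> cases y <;> cases w <;> rfl

theorem post_tab : ∀ b0 b1 b2 b3 b4 b5 b6 b7 : Bool, xor (xor b0 b1) (xor b2 b3) = true →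
    ∃ i : Fin 10,
      (∀ x y w, T (tab b0 b1 b2 b3 b4 b5 b6 b7) i x y w = (x && y)) ∨
      (∀ x y w, T (tab b0 b1 b2 b3 b4 b5 b6 b7) i x y w = (x && w)) ∨
      (∀ x y w, T (tab b0 b1 b2 b3 b4 b5 b6 b7) i x y w = (y && w)) ∨
      (∀ x y w, T (tab b0 b1 b2 b3 b4 b5 b6 b7) i x y w = (x || y)) ∨
      (∀ x y w, T (tab b0 b1 b2 b3 b4 b5 b6 b7) i x y w = (x || w)) ∨
      (∀ x y w, T (tab b0 b1 b2 b3 b4 b5 b6 b7) i x y w = (y || w)) ∨
      (∀ x y w, T (tab b0 b1 b2 b3 b4 b5 b6 b7) i x y w = maj x y w) := by
  decide +kernel

/-- closure under a ternary operation passes to the ten terms -/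
theorem T_closed {n : ℕ} {h : Bool → Bool → Bool → Bool} {C : Finset (Fin n → Bool)}
    (hcl : ∀ a ∈ C, ∀ b ∈ C, ∀ c ∈ C, (fun i => h (a i) (b i) (c i)) ∈ C) (j : Fin 10) :
    ∀ a ∈ C, ∀ b ∈ C, ∀ c ∈ C, (fun i => T h j (a i) (b i) (c i)) ∈ C := by
  intro a ha b hb c hc
  have H : ∀ a : {x // x ∈ C}, ∀ b : {x // x ∈ C}, ∀ c : {x // x ∈ C},
      (fun i => h (a.1 i) (b.1 i) (c.1 i)) ∈ C := fun a b c => hcl a.1 a.2 b.1 b.2 c.1 c.2
  let A : {x // x ∈ C} := ⟨a, ha⟩
  let B : {x // x ∈ C} := ⟨b, hb⟩
  let W : {x // x ∈ C} := ⟨c, hc⟩
  let h' : {x // x ∈ C} → {x // x ∈ C} → {x // x ∈ C} → {x // x ∈ C} := fun a b c => ⟨_, H a b c⟩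
  fin_cases j
  · exact (h' (h' A A B) (h' B B A) (h' A A B)).2
  · exact (h' A B (h' B B B)).2
  · exact (h' (h' A B A) B (h' A B B)).2
  · exact (h' A (h' A B B) (h' W W W)).2
  · exact (h' A B (h' B B A)).2
  · exact (h' (h' A B B) (h' B A A) (h' A B W)).2
  · exact (h' A (h' A B A) A).2
  · exact (h' (h' A A A) A B).2
  · exact (h' (h' A B B) (h' A W B) (h' B A A)).2
  · exact (h' (h' A B W) (h' A A B) W).2

theorem ternary_bound {n d : ℕ} (hd : 1 ≤ d) {h : Bool → Bool → Bool → Bool}
    (hh : xor (xor (h false false false) (h true false false))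
      (xor (h false true false) (h true true false)) = true)
    {C : Finset (Fin n → Bool)} (hC : MinDist d C)
    (hcl : ∀ a ∈ C, ∀ b ∈ C, ∀ c ∈ C, (fun i => h (a i) (b i) (c i)) ∈ C) :
    C.card ≤ 2 ^ (n / d) := by
  obtain ⟨j, hj⟩ := post_tab _ _ _ _ (h false false true) (h true false true) (h false true true)
    (h true true true) hh
  rw [← eq_tab] at hj
  have hT := T_closed hcl j
  have hand : (∀ a ∈ C, ∀ b ∈ C, (fun i => a i && b i) ∈ C) → C.card ≤ 2 ^ (n / d) := by
    intro h1
    have := and_bound hd n (univ : Finset (Fin n)) (by simp) C hC h1 (fun _ _ _ _ i _ => mem_univ i)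
    rwa [card_univ, Fintype.card_fin] at this
  rcases hj with hj | hj | hj | hj | hj | hj | hj
  · apply hand
    intro a ha b hb
    have := hT a ha b hb b hb
    simpa only [hj] using this
  · apply hand
    intro a ha b hb
    have := hT a ha b hb b hb
    simpa only [hj] using this
  · apply hand
    intro a ha b hb
    have := hT a ha a ha b hb
    simpa only [hj] using this
  · apply or_bound hd C hC
    intro a ha b hb
    have := hT a ha b hb b hb
    simpa only [hj] using this
  · apply or_bound hd C hC
    intro a ha b hb
    have := hT a ha b hb b hb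
    simpa only [hj] using this
  · apply or_bound hd C hC
    intro a ha b hb
    have := hT a ha a ha b hb
    simpa only [hj] using this
  · have := maj_bound hd n (univ : Finset (Fin n)) (by simp) C hC
      (fun a ha b hb c hc => by simpa only [hj] using hT a ha b hb c hc)
      (fun _ _ _ _ i _ => mem_univ i)
    rwa [card_univ, Fintype.card_fin] at this

/-! ### reduction to ternary operations -/

/-- indicator -/
def ind {k : ℕ} (u : Finset (Fin k)) : Fin k → Bool := fun j => decide (j ∈ u)

theorem affine_of {k : ℕ} (f : (Fin k → Bool) → Bool)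
    (h : ∀ u v : Finset (Fin k), Disjoint u v →
      xor (xor (f (ind ∅)) (f (ind u))) (xor (f (ind v)) (f (ind (u ∪ v)))) = false) : IsAffine f := by
  classical
  refine ⟨univ.filter (fun j => f (ind {j}) ≠ f (ind ∅)), f (ind ∅), ?_⟩
  have key : ∀ u : Finset (Fin k), f (ind u) = xor (f (ind ∅))
      (decide (Odd (u.filter (fun j => f (ind {j}) ≠ f (ind ∅))).card)) := by
    intro u
    induction u using Finset.induction_on with
    | empty => simp
    | insert j u hj ih =>
      have h1 := h u {j} (by rw [disjoint_singleton_right]; exact hj)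
      have h2 : u ∪ {j} = insert j u := by rw [union_comm]; rfl
      rw [h2] at h1
      rw [filter_insert]
      by_cases hjj : f (ind {j}) ≠ f (ind ∅)
      · rw [if_pos hjj, card_insert_of_notMem (by simp [hj])]
        have h3 : decide (Odd ((u.filter (fun j => f (ind {j}) ≠ f (ind ∅))).card + 1)) =
            ! decide (Odd (u.filter (fun j => f (ind {j}) ≠ f (ind ∅))).card) := by
          by_cases ho : Odd (u.filter (fun j => f (ind {j}) ≠ f (ind ∅))).card
          · simp [ho, Nat.odd_add_one]
          · simp [ho, Nat.odd_add_one]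
        rw [h3]
        generalize decide (Odd (u.filter (fun j => f (ind {j}) ≠ f (ind ∅))).card) = t at ih
        revert h1 ih hjj
        generalize f (ind (insert j u)) = p
        generalize f (ind u) = q
        generalize f (ind {j}) = r
        generalize f (ind ∅) = z
        cases p <;> cases q <;> cases r <;> cases z <;> cases t <;> simp
      · rw [if_neg hjj]
        push Not at hjj
        rw [hjj] at h1
        revert h1
        generalize decide (Odd (u.filter (fun j => f (ind {j}) ≠ f (ind ∅))).card) = t at ih
        revert ih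
        generalize f (ind (insert j u)) = p
        generalize f (ind u) = q
        generalize f (ind ∅) = z
        cases p <;> cases q <;> cases z <;> cases t <;> simp
  intro x
  have hx : x = ind (univ.filter (fun j => x j = true)) := by
    funext j
    simp [ind]
  have h1 := key (univ.filter (fun j => x j = true))
  rw [← hx] at h1
  rw [h1]
  congr 3
  congr 1
  ext j
  simp [and_comm]

theorem nonaffine_bound {n d k : ℕ} (hd : 1 ≤ d) {f : (Fin k → Bool) → Bool} (hf : ¬ IsAffine f)
    {C : Finset (Fin n → Bool)} (hC : MinDist d C) (hcl : ClosedUnder f C) :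
    C.card ≤ 2 ^ (n / d) := by
  classical
  have h1 : ∃ u v : Finset (Fin k), Disjoint u v ∧
      xor (xor (f (ind ∅)) (f (ind u))) (xor (f (ind v)) (f (ind (u ∪ v)))) = true := by
    by_contra hcon
    push Not at hcon
    apply hf
    apply affine_of
    intro u v huv
    have := hcon u v huv
    simpa using this
  obtain ⟨u, v, huv, hx⟩ := h1
  apply ternary_bound hd (h := fun x y w => f (fun j => if j ∈ u then x else if j ∈ v then y else w)) ?_ hC
  · intro a ha b hb c hc
    have := hcl (fun j => if j ∈ u then a else if j ∈ v then b else c) ?_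
    · convert this using 4 with i j
      split_ifs <;> rfl
    · intro j
      split_ifs
      · exact ha
      · exact hb
      · exact hc
  · have e0 : (fun j => if j ∈ u then false else if j ∈ v then false else false) = ind (∅ : Finset (Fin k)) := by
      funext j; simp [ind]
    have e1 : (fun j => if j ∈ u then true else if j ∈ v then false else false) = ind u := by
      funext j; simp [ind]
    have e2 : (fun j => if j ∈ u then false else if j ∈ v then true else false) = ind v := by
      funext j
      by_cases hju : j ∈ u
      · have : j ∉ v := fun h => (disjoint_left.mp huv) hju h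
        simp [ind, hju, this]
      · simp [ind, hju]
    have e3 : (fun j => if j ∈ u then true else if j ∈ v then true else false) = ind (u ∪ v) := by
      funext j
      by_cases hju : j ∈ u <;> by_cases hjv : j ∈ v <;> simp [ind, hju, hjv]
    rw [e0, e1, e2, e3]
    exact hx

/-! ### the block code -/

/-- block of the coordinate `i` -/
def blk {n : ℕ} (d : ℕ) (hq : 0 < n / d) (i : Fin n) : Fin (n / d) :=
  ⟨min (i.1 / d) (n / d - 1), by omega⟩

theorem block_code {n d : ℕ} (hd : 1 ≤ d) (hdn : d ≤ n) :
    ∃ C : Finset (Fin n → Bool), (∀ (k : ℕ) (f : (Fin k → Bool) → Bool), ClosedUnder f C) ∧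
      MinDist d C ∧ C.card = 2 ^ (n / d) := by
  classical
  have hq : 0 < n / d := Nat.div_pos hdn (by omega)
  have hqn : n / d * d ≤ n := Nat.div_mul_le_self n d
  -- the coordinates of block b
  have hco : ∀ (b : Fin (n / d)) (t : Fin d), b.1 * d + t.1 < n := by
    intro b t
    have h1 : (b.1 + 1) * d ≤ n / d * d := Nat.mul_le_mul_right d b.2
    have h2 := t.2
    have h3 : (b.1 + 1) * d = b.1 * d + d := by ring
    omega
  have hblk : ∀ (b : Fin (n / d)) (t : Fin d), blk d hq ⟨b.1 * d + t.1, hco b t⟩ = b := by
    intro b t
    apply Fin.ext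
    have h1 : (b.1 * d + t.1) / d = b.1 := by
      rw [Nat.mul_comm, Nat.mul_add_div (by omega), Nat.div_eq_of_lt t.2, Nat.add_zero]
    simp only [blk, h1]
    have := b.2
    omega
  let φ : (Fin (n / d) → Bool) → (Fin n → Bool) := fun g i => g (blk d hq i)
  have hφ : ∀ g g' : Fin (n / d) → Bool, g ≠ g' → d ≤ hammingDist (φ g) (φ g') := by
    intro g g' hgg
    obtain ⟨b, hb⟩ : ∃ b, g b ≠ g' b := by
      by_contra h
      push Not at h
      exact hgg (funext h)
    rw [dist_def]
    calc d = (univ : Finset (Fin d)).card := by simp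
      _ = ((univ : Finset (Fin d)).image (fun t => (⟨b.1 * d + t.1, hco b t⟩ : Fin n))).card := by
          rw [card_image_of_injective]
          intro t t' htt
          have := congrArg Fin.val htt
          simp only at this
          exact Fin.ext (by omega)
      _ ≤ _ := by
          apply card_le_card
          intro i hi
          obtain ⟨t, -, rfl⟩ := mem_image.mp hi
          simp only [mem_filter, mem_univ, true_and, φ, hblk]
          exact hb
  have hinj : Function.Injective φ := by
    intro g g' h
    by_contra hne
    have h1 := hφ g g' hne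
    rw [h] at h1
    simp at h1
    omega
  refine ⟨(univ : Finset (Fin (n / d) → Bool)).image φ, ?_, ?_, ?_⟩
  · intro k f c hc
    choose g hg using fun j => mem_image.mp (hc j)
    refine mem_image.mpr ⟨fun b => f (fun j => g j b), mem_univ _, ?_⟩
    funext i
    simp only [φ]
    congr 1
    funext j
    rw [← (hg j).2]
  · intro a ha b hb hab
    obtain ⟨g, -, rfl⟩ := mem_image.mp ha
    obtain ⟨g', -, rfl⟩ := mem_image.mp hb
    exact hφ g g' (fun h => hab (by rw [h]))
  · rw [card_image_of_injective _ hinj]
    simp

/-! ### affine operations and linear codes -/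

theorem ball_card (n d : ℕ) (c : Fin n → Bool) :
    (univ.filter (fun v : Fin n → Bool => hammingDist v c < d)).card =
      ∑ i ∈ range d, n.choose i := by
  classical
  have h1 : (univ.filter (fun v : Fin n → Bool => hammingDist v c < d)).card =
      ((univ : Finset (Finset (Fin n))).filter (fun s => s.card < d)).card := by
    apply card_bij (fun v _ => univ.filter (fun i => v i ≠ c i))
    · intro v hv
      simpa [dist_def] using hv
    · intro v _ w _ hvw
      funext i
      have := Finset.ext_iff.mp hvw i
      simp only [mem_filter, mem_univ, true_and] at this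
      revert this
      cases v i <;> cases w i <;> cases c i <;> simp
    · intro s hs
      refine ⟨fun i => xor (c i) (decide (i ∈ s)), ?_, ?_⟩
      · have e : (univ.filter (fun i => xor (c i) (decide (i ∈ s)) ≠ c i)) = s := by
          ext i
          simp only [mem_filter, mem_univ, true_and]
          by_cases hi : i ∈ s
          · cases c i <;> simp [hi]
          · cases c i <;> simp [hi]
        have hs' : s.card < d := by simpa using hs
        refine mem_filter.mpr ⟨mem_univ _, ?_⟩
        rw [dist_def, e]
        exact hs'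
      · ext i
        simp only [mem_filter, mem_univ, true_and]
        by_cases hi : i ∈ s <;> simp [hi]
  rw [h1]
  have h2 : ((univ : Finset (Finset (Fin n))).filter (fun s => s.card < d)) =
      (range d).biUnion (fun i => powersetCard i (univ : Finset (Fin n))) := by
    ext s
    simp [mem_powersetCard]
  rw [h2, card_biUnion]
  · apply sum_congr rfl
    intro i _
    rw [card_powersetCard, card_univ, Fintype.card_fin]
  · intro i _ j _ hij
    rw [Function.onFun, disjoint_left]
    intro s hs hs'
    rw [mem_powersetCard] at hs hs'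
    exact hij (hs.2.symm.trans hs'.2)

theorem gv {n d : ℕ} (hd : 1 ≤ d) (hdn : d ≤ n) :
    ∃ C : Finset (Fin n → Bool), (∀ a ∈ C, ∀ b ∈ C, (fun i => xor (a i) (b i)) ∈ C) ∧
      (fun _ => true) ∈ C ∧ MinDist d C ∧ 2 ^ n ≤ C.card * ∑ i ∈ range d, n.choose i := by
  classical
  let Good : Finset (Fin n → Bool) → Prop := fun C =>
    (∀ a ∈ C, ∀ b ∈ C, (fun i => xor (a i) (b i)) ∈ C) ∧ (fun _ => true) ∈ C ∧ MinDist d C
  have hne : ((univ : Finset (Finset (Fin n → Bool))).filter Good).Nonempty := by
    refine ⟨{fun _ => false, fun _ => true}, mem_filter.mpr ⟨mem_univ _, ?_, ?_, ?_⟩⟩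
    · intro a ha b hb
      simp only [mem_insert, mem_singleton] at ha hb ⊢
      rcases ha with rfl | rfl <;> rcases hb with rfl | rfl <;> simp
    · simp
    · intro a ha b hb hab
      simp only [mem_insert, mem_singleton] at ha hb
      rcases ha with rfl | rfl <;> rcases hb with rfl | rfl
      · exact absurd rfl hab
      · simpa [dist_def] using hdn
      · simpa [dist_def] using hdn
      · exact absurd rfl hab
  obtain ⟨C, hC, hmax⟩ := exists_max_image _ Finset.card hne
  obtain ⟨hlin, hone, hdist⟩ := (mem_filter.mp hC).2
  refine ⟨C, hlin, hone, hdist, ?_⟩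
  have hzero : (fun _ => false) ∈ C := by
    have := hlin _ hone _ hone
    simpa using this
  have hcover : ∀ v : Fin n → Bool, ∃ c ∈ C, hammingDist v c < d := by
    intro v
    by_contra hcon
    push Not at hcon
    let C' := C ∪ C.image (fun c i => xor (v i) (c i))
    have hvC : v ∉ C := by
      intro hv
      have := hcon v hv
      simp at this
      omega
    have hgood : Good C' := by
      refine ⟨?_, mem_union_left _ hone, ?_⟩
      · intro a ha b hb
        rcases mem_union.mp ha with ha | ha <;> rcases mem_union.mp hb with hb | hb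
        · exact mem_union_left _ (hlin a ha b hb)
        · obtain ⟨b', hb', rfl⟩ := mem_image.mp hb
          refine mem_union_right _ (mem_image.mpr ⟨_, hlin a ha b' hb', ?_⟩)
          funext i
          show xor (v i) (xor (a i) (b' i)) = xor (a i) (xor (v i) (b' i))
          cases a i <;> cases b' i <;> cases v i <;> rfl
        · obtain ⟨a', ha', rfl⟩ := mem_image.mp ha
          refine mem_union_right _ (mem_image.mpr ⟨_, hlin a' ha' b hb, ?_⟩)
          funext i
          show xor (v i) (xor (a' i) (b i)) = xor (xor (v i) (a' i)) (b i)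
          cases a' i <;> cases b i <;> cases v i <;> rfl
        · obtain ⟨a', ha', rfl⟩ := mem_image.mp ha
          obtain ⟨b', hb', rfl⟩ := mem_image.mp hb
          have h3 := hlin a' ha' b' hb'
          have e : (fun i => xor (xor (v i) (a' i)) (xor (v i) (b' i))) =
              (fun i => xor (a' i) (b' i)) := by
            funext i
            cases a' i <;> cases b' i <;> cases v i <;> rfl
          have h3' : (fun i => xor (xor (v i) (a' i)) (xor (v i) (b' i))) ∈ C := by
            rw [e]; exact h3
          exact mem_union_left _ h3'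
      · have hx : ∀ a ∈ C, ∀ b' ∈ C, d ≤ hammingDist a (fun i => xor (v i) (b' i)) := by
          intro a ha b' hb'
          have h3 := hcon _ (hlin a ha b' hb')
          rw [dist_def] at h3 ⊢
          have e : (univ.filter (fun i => a i ≠ xor (v i) (b' i))) =
              univ.filter (fun i => v i ≠ xor (a i) (b' i)) := by
            ext i
            simp only [mem_filter, mem_univ, true_and]
            cases a i <;> cases b' i <;> cases v i <;> simp
          rw [e]
          exact h3
        intro a ha b hb hab
        rcases mem_union.mp ha with ha | ha <;> rcases mem_union.mp hb with hb | hb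
        · exact hdist a ha b hb hab
        · obtain ⟨b', hb', rfl⟩ := mem_image.mp hb
          exact hx a ha b' hb'
        · obtain ⟨a', ha', rfl⟩ := mem_image.mp ha
          rw [hammingDist_comm]
          exact hx b hb a' ha'
        · obtain ⟨a', ha', rfl⟩ := mem_image.mp ha
          obtain ⟨b', hb', rfl⟩ := mem_image.mp hb
          have h3 := hdist a' ha' b' hb' (fun h => hab (by rw [h]))
          rw [dist_def] at h3 ⊢
          have e : (univ.filter (fun i => xor (v i) (a' i) ≠ xor (v i) (b' i))) =
              univ.filter (fun i => a' i ≠ b' i) := by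
            ext i
            simp only [mem_filter, mem_univ, true_and]
            cases a' i <;> cases b' i <;> cases v i <;> simp
          rw [e]
          exact h3
    have h4 := hmax C' (mem_filter.mpr ⟨mem_univ _, hgood⟩)
    have h5 : C.card < C'.card := by
      apply card_lt_card
      rw [ssubset_iff_of_subset subset_union_left]
      refine ⟨v, mem_union_right _ (mem_image.mpr ⟨_, hzero, ?_⟩), hvC⟩
      funext i
      simp
    omega
  have h6 : (univ : Finset (Fin n → Bool)) ⊆
      C.biUnion (fun c => univ.filter (fun v : Fin n → Bool => hammingDist v c < d)) := by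
    intro v _
    obtain ⟨c, hc, hvc⟩ := hcover v
    exact mem_biUnion.mpr ⟨c, hc, mem_filter.mpr ⟨mem_univ _, hvc⟩⟩
  calc 2 ^ n = (univ : Finset (Fin n → Bool)).card := by simp
    _ ≤ _ := card_le_card h6
    _ ≤ ∑ c ∈ C, (univ.filter (fun v : Fin n → Bool => hammingDist v c < d)).card := card_biUnion_le
    _ = C.card * ∑ i ∈ range d, n.choose i := by
        simp only [ball_card]
        rw [sum_const, smul_eq_mul]

theorem affine_closed {n k : ℕ} {f : (Fin k → Bool) → Bool} (hf : IsAffine f)
    {C : Finset (Fin n → Bool)} (hlin : ∀ a ∈ C, ∀ b ∈ C, (fun i => xor (a i) (b i)) ∈ C)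
    (hone : (fun _ => true) ∈ C) : ClosedUnder f C := by
  classical
  obtain ⟨S, b, hS⟩ := hf
  intro c hc
  have hzero : (fun _ => false) ∈ C := by
    have := hlin _ hone _ hone
    simpa using this
  have key : ∀ S : Finset (Fin k),
      (fun i => decide (Odd (S.filter (fun j => c j i = true)).card)) ∈ C := by
    intro S
    induction S using Finset.induction_on with
    | empty => simpa using hzero
    | insert j S hj ih =>
      have h1 := hlin _ (hc j) _ ih
      convert h1 using 1
      funext i
      rw [filter_insert]
      cases hji : c j i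
      · simp
      · rw [if_pos rfl, card_insert_of_notMem (by simp [hj])]
        by_cases ho : Odd (S.filter (fun j => c j i = true)).card
        · simp [ho, Nat.odd_add_one]
        · simp [ho, Nat.odd_add_one]
  have h2 := key S
  have h3 : (fun _ : Fin n => b) ∈ C := by
    cases b
    · exact hzero
    · exact hone
  have h4 := hlin _ h3 _ h2
  convert h4 using 1
  funext i
  exact hS _

/-- **Dichotomy.** Let `F` be any family of Boolean operations (`F k` is the set of its members with
`k` arguments) and let `1 ≤ d ≤ n`. If `F` contains an operation that is not affine, then the largest size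
of a binary code of length `n` with minimum distance at least `d` that is closed under all operations
of `F` is exactly `2 ^ ⌊n / d⌋`. If all operations of `F` are affine, then there is such a code
satisfying the Gilbert-Varshamov bound. -/
theorem result (F : ∀ k : ℕ, Set ((Fin k → Bool) → Bool)) (n d : ℕ) (hd : 1 ≤ d) (hdn : d ≤ n) :
    ((∃ k, ∃ f ∈ F k, ¬ IsAffine f) →
      IsGreatest {m : ℕ | ∃ C : Finset (Fin n → Bool),
        (∀ k, ∀ f ∈ F k, ClosedUnder f C) ∧ MinDist d C ∧ C.card = m} (2 ^ (n / d))) ∧
    ((∀ k, ∀ f ∈ F k, IsAffine f) →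
      ∃ C : Finset (Fin n → Bool), (∀ k, ∀ f ∈ F k, ClosedUnder f C) ∧ MinDist d C ∧
        2 ^ n ≤ C.card * ∑ i ∈ range d, n.choose i) := by
  constructor
  · rintro ⟨k, f, hf, hna⟩
    constructor
    · obtain ⟨C, h1, h2, h3⟩ := block_code hd hdn
      exact ⟨C, fun k f _ => h1 k f, h2, h3⟩
    · rintro m ⟨C, h1, h2, rfl⟩
      exact nonaffine_bound hd hna h2 (h1 k f hf)
  · intro haff
    obtain ⟨C, h1, h2, h3, h4⟩ := gv hd hdn
    exact ⟨C, fun k f hf => affine_closed (haff k f hf) h1 h2, h3, h4⟩

end Pool.Agent.Results.MP_0430e4_lc.ClosedCodes
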