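import Mathlib
import Pool.Agent.H70R2.AB.Final

/-!
# Binary quasi-abelian codes over groups of bounded exponent

A binary quasi-abelian code of index `ℓ` over a finite abelian group `G` is a linear code on the
coordinate set `G × Fin ℓ` which is invariant under the translations of `G`, that is, a
submodule of `(F_2[G])^ℓ`.  For every exponent `E`, every index `ℓ` and all `δ, ε > 0`, such a code
over a group of exponent dividing `E` and sufficiently large order whose relative minimum distance
is at least `δ` has rate at most `ε`.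
-/

/-- Binary quasi-abelian codes of bounded index over groups of bounded exponent are
asymptotically bad. -/
theorem Pool.Agent.Results.MP_0430e4_lc.QuasiAbelianCodes.result
    (E ℓ : ℕ) (hE : 0 < E) (δ ε : ℝ) (hδ : 0 < δ) (hε : 0 < ε) :
    ∃ N : ℕ, ∀ (G : Type) [AddCommGroup G] [Fintype G], (∀ g : G, E • g = 0) →
      N ≤ Fintype.card G →
      ∀ C : Submodule (ZMod 2) (G × Fin ℓ → ZMod 2),
        (∀ g : G, ∀ f ∈ C, (fun x : G × Fin ℓ => f (g + x.1, x.2)) ∈ C) →
        (∀ f ∈ C, f ≠ 0 → δ * Fintype.card (G × Fin ℓ) ≤ hammingNorm f) →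
        (Module.finrank (ZMod 2) C : ℝ) ≤ ε * Fintype.card (G × Fin ℓ) :=
  H70.AB.main E ℓ hE δ ε hδ hε
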