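import Mathlib
import Pool.Agent.H70R2.TG.Final

/-!
# Binary linear codes with a large 2-group of symmetries

Let `P` be a finite 2-group acting on the set `Ω` of coordinates with at most `ℓ` orbits, and let
`φ` be a homomorphism of `P` onto `(ZMod 2)^m` whose kernel contains all point stabilisers (if `P`
acts freely, one may take for `m` the minimal number of generators of `P`).  For every `δ > 0` and
`ε > 0`, once `m` is large in terms of `ℓ, δ, ε` only, every binary linear code `C` on `Ω` which
is invariant under `P` and whose relative minimum distance is at least `δ` has rate at most `ε`.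
-/

/-- Binary linear codes invariant under 2-groups with many generators and boundedly many orbits are
asymptotically bad. -/
theorem Pool.Agent.Results.MP_0430e4_lc.TwoGroupCodes.result
    (ℓ : ℕ) (δ ε : ℝ) (hδ : 0 < δ) (hε : 0 < ε) :
    ∃ M : ℕ, ∀ m ≥ M, ∀ (P Ω : Type) [Group P] [Fintype Ω] [MulAction P Ω]
      (φ : P →* Multiplicative (Fin m → ZMod 2)),
      IsPGroup 2 P → Function.Surjective φ →
      (∀ ω : Ω, MulAction.stabilizer P ω ≤ φ.ker) →
      Nat.card (MulAction.orbitRel.Quotient P Ω) ≤ ℓ →
      ∀ C : Submodule (ZMod 2) (Ω → ZMod 2),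
        (∀ g : P, ∀ f ∈ C, (fun ω => f (g • ω)) ∈ C) →
        (∀ f ∈ C, f ≠ 0 → δ * Fintype.card Ω ≤ hammingNorm f) →
        (Module.finrank (ZMod 2) C : ℝ) ≤ ε * Fintype.card Ω :=
  H70.TG.main ℓ δ ε hδ hε
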